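import Pool.Agent.W415.Exc.Prime

set_option autoImplicit false

/-! The centre of the twisted algebra; it is not a Cayley-Dickson ring. -/

namespace Pool.Agent.W415.Exc

theorem D_ker (K : ℕ) : ∀ u ∈ LK K, D u = 0 → ∃ r : ZMod 3, u = algebraMap (ZMod 3) L r := by
  induction K with
  | zero => intro u hu _; exact LK_zero hu
  | succ K ih =>
    intro u hu h
    obtain ⟨c, hc, d, hd, rfl⟩ := decomp hu
    have h1 := congrArg (con (co (K + 1))) h
    have hcomp : (co (K + 1)).comp T = co K := by
      have := co_comp_pow_add K 1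
      rwa [pow_one] at this
    rw [con_D, con_LK le_rfl hu, map_zero, map_zero, zero_add, hcomp, map_add, con_LK le_rfl hc,
      zero_add, con_mul, con_e, if_pos rfl, one_mul, con_LK le_rfl hd, mul_zero, add_zero] at h1
    subst h1
    rw [mul_zero, add_zero] at h ⊢
    exact ih c hc h

theorem center_sub (z : A) (hz : z ∈ Set.center A) : ∃ r : ZMod 3, (z : L) = algebraMap (ZMod 3) L r := by
  obtain ⟨u, hu⟩ : ∃ u : L, u = z := ⟨z, rfl⟩
  have hc : ∀ v : L, mulA u v = mulA v u := by
    intro v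
    rw [hu]
    exact hz.comm (v : A)
  have hl : ∀ v w : L, mulA u (mulA v w) = mulA (mulA u v) w := by
    intro v w
    rw [hu]
    exact hz.left_assoc (v : A) (w : A)
  obtain ⟨K, hK⟩ := exists_LK u
  obtain ⟨a, ha⟩ : ∃ a, a = u - od u := ⟨_, rfl⟩
  obtain ⟨x, hx'⟩ : ∃ x, x = od u := ⟨_, rfl⟩
  have hae : inv a = a := by rw [ha]; exact ev_even u
  have hxo : inv x = -x := by rw [hx']; exact od_odd u
  have hux : u = a + x := by rw [ha, hx']; abel
  have hxK : x ∈ LK K := by
    rw [hx', od_apply]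
    exact Subalgebra.sub_mem _ (inv_LK hK) hK
  -- commuting with `e K`
  have hx0 : x = 0 := by
    by_contra hne
    have h1 := hc (e K)
    have z0 : inv (0 : L) = 0 := map_zero _
    have e0 : e K = 0 + e K := by rw [zero_add]
    rw [hux, e0, mulA_eq hae hxo z0 (inv_e K), mulA_eq z0 (inv_e K) hae hxo] at h1
    have o1 := odd_anti (inv_e K) hxo
    have o2 := odd_anti (odd_D (inv_e K)) hxo
    have o3 := odd_anti (inv_e K) (odd_D hxo)
    rw [o1, o2, o3] at h1
    have h2 : x * e K + x * e K = 0 := by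
      have : x * e K + x * e K = (a * 0 + x * e K - D x * e K + x * D (e K) + (a * e K + 0 * x)) - 
        (0 * a + -(x * e K) - -(x * D (e K)) + -(D x * e K) + (0 * x + a * e K)) := by noncomm_ring
      rw [this, h1, sub_self]
    have h3 := three_eq (x * e K)
    rw [h2, zero_add] at h3
    exact mul_e_ne hxK hne h3
  have hua : u = a := by rw [hux, hx0, add_zero]
  have hue : inv u = u := by rw [hua]; exact hae
  have hD : D u = 0 := by
    by_contra hne
    have h1 := hl (e (K + 1)) (e (K + 2))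
    rw [mulA_even_left hue, mulA_even_left hue, mulA_odd (inv_e _) (inv_e _), 
      mulA_odd (even_odd hue (inv_e _)) (inv_e _), D_mul] at h1
    have h2 : D u * e (K + 1) * e (K + 2) = 0 := by
      have : D u * e (K + 1) * e (K + 2) = u * (e (K + 1) * e (K + 2) - D (e (K + 1)) * e (K + 2) + e (K + 1) * D (e (K + 2)))
        - (u * e (K + 1) * e (K + 2) - (D u * e (K + 1) + u * D (e (K + 1))) * e (K + 2) + u * e (K + 1) * D (e (K + 2))) := by
        noncomm_ring
      rw [this, h1, sub_self]
    have hDK := D_LK hK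
    have n1 : D u * e (K + 1) ≠ 0 := mul_e_ne hDK hne
    exact mul_e_ne (K := K + 2) (Subalgebra.mul_mem _ (LK_mono (by omega) hDK) (e_mem (by omega))) n1 h2
  obtain ⟨r, hr⟩ := D_ker K u hK hD
  exact ⟨r, by rw [← hu]; exact hr⟩

theorem one_inv : inv (1 : L) = 1 := map_one _

theorem one_mulA (u : L) : mulA 1 u = u := by rw [mulA_even_left one_inv, one_mul]
theorem mulA_one (u : L) : mulA u 1 = u := by rw [mulA_even_right one_inv, mul_one]

theorem one_center : ((1 : L) : A) ∈ Set.center A := by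
  refine ⟨fun a => ?_, fun b c => ?_, fun a b => ?_⟩
  · exact (one_mulA a).trans (mulA_one a).symm
  · have h : ∀ b c : L, mulA 1 (mulA b c) = mulA (mulA 1 b) c := by
      intro b c
      rw [one_mulA, one_mulA]
    exact h b c
  · have h : ∀ a b : L, mulA (mulA a b) 1 = mulA a (mulA b 1) := by
      intro a b
      rw [mulA_one, mulA_one]
    exact h a b

/-- augmentation -/
noncomputable def aug : L →ₐ[ZMod 3] ZMod 3 := ExteriorAlgebra.algebraMapInv

theorem aug_inv (u : L) : aug (inv u) = aug u := by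
  induction u using ExteriorAlgebra.induction with
  | algebraMap r => rw [AlgHom.commutes]
  | ι x => 
    change aug (inv (io x)) = aug (io x)
    rw [inv_io, map_neg, aug, ExteriorAlgebra.algebraMapInv, ExteriorAlgebra.lift_ι_apply]; simp
  | mul a b ha hb => rw [map_mul, map_mul, map_mul, ha, hb]
  | add a b ha hb => rw [map_add, map_add, map_add, ha, hb]

theorem aug_od (u : L) : aug (od u) = 0 := by rw [od_apply, map_sub, aug_inv, sub_self]

theorem aug_mulA (u v : L) : aug (mulA u v) = aug u * aug v := by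
  rw [mulA, map_add, map_sub, map_mul, map_mul, map_mul, aug_od, aug_od]; ring

theorem aug_e (i : ℕ) : aug (e i) = 0 := by
  rw [aug, e, io, ExteriorAlgebra.algebraMapInv, ExteriorAlgebra.lift_ι_apply]; simp

noncomputable def augA : A →ₙ+* ZMod 3 where
  toFun u := aug (u : L)
  map_mul' u v := aug_mulA u v
  map_zero' := map_zero aug
  map_add' u v := map_add aug u v

theorem not_CD : ¬ (∃ (F : Type) (_ : Field F) (C : Type) (_ : NonAssocRing C) (_ : Module F C)
          (_ : IsScalarTower F C C) (_ : SMulCommClass F C C),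
          (∀ x y : C, (x * x) * y = x * (x * y) ∧ (y * x) * x = y * (x * x)) ∧
          Module.finrank F C = 8 ∧
          (∀ c ∈ Set.center C, ∃ a : F, c = a • (1 : C)) ∧
          Nontrivial C ∧
          (∀ I : TwoSidedIdeal C, I = ⊥ ∨ I = ⊤) ∧
          (∃ x y z : C, (x * y) * z ≠ x * (y * z)) ∧
          ∃ φ : A →ₙ+* C, Function.Injective φ ∧
            (∀ z ∈ Set.center A, ∃ a : F, φ z = a • (1 : C)) ∧
            ∀ c : C, ∃ z ∈ Set.center A, z ≠ 0 ∧ ∃ k : A, φ z * c = φ k) := by
  rintro ⟨F, _, C, _, _, _, _, _, _, _, _, hsimple, _, φ, hφ, hc, hs⟩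
  obtain ⟨o, ho⟩ : ∃ o : A, o = ((1 : L) : A) := ⟨_, rfl⟩
  have hoc : o ∈ Set.center A := by rw [ho]; exact one_center
  have hoL : ∀ k : A, o * k = k := by
    intro k
    rw [ho]
    exact one_mulA k
  have ho0 : o ≠ 0 := by
    rw [ho]
    exact (one_ne_zero : (1 : L) ≠ 0)
  have hφo0 : φ o ≠ 0 := by
    intro h
    exact ho0 (hφ (by rw [h, map_zero]))
  have hφo : φ o = 1 := by
    obtain ⟨a, ha⟩ := hc o hoc
    have h1 : φ o * φ o = φ o := by rw [← map_mul, hoL]
    rw [ha, smul_mul_assoc, one_mul, smul_smul] at h1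
    have h2 : (a * a - a) • (1 : C) = 0 := by rw [sub_smul, h1, sub_self]
    rcases smul_eq_zero.1 h2 with h3 | h3
    · have h4 : a * (a - 1) = 0 := by rw [← h3]; ring
      rcases mul_eq_zero.1 h4 with h5 | h5
      · exact absurd (by rw [ha, h5, zero_smul]) hφo0
      · rw [ha, sub_eq_zero.1 h5, one_smul]
    · exact absurd h3 one_ne_zero
  -- surjectivity
  have hsurj : Function.Surjective φ := by
    intro c
    obtain ⟨z, hz, hz0, k, hk⟩ := hs c
    obtain ⟨r, hr⟩ := center_sub z hz
    obtain ⟨a, ha⟩ := hc z hz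
    have hr0 : r ≠ 0 := by
      rintro rfl
      apply hz0
      rw [map_zero] at hr
      exact hr
    have hrr : r * r = 1 := by
      have : ∀ r : ZMod 3, r ≠ 0 → r * r = 1 := by decide
      exact this r hr0
    have hzz : z * z = o := by
      rw [ho]
      change mulA (z : L) (z : L) = 1
      rw [hr]
      have he : inv (algebraMap (ZMod 3) L r) = algebraMap (ZMod 3) L r := AlgHom.commutes _ _
      rw [mulA_even_left he, ← map_mul, hrr, map_one]
    refine ⟨z * k, ?_⟩
    rw [map_mul, ← hk, ha, smul_mul_assoc, one_mul, smul_mul_assoc, one_mul, smul_smul]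
    have h1 : φ z * φ z = 1 := by rw [← map_mul, hzz, hφo]
    rw [ha, smul_mul_assoc, one_mul, smul_smul] at h1
    have h2 : (a * a) • c = ((a * a) • (1 : C)) * c := by rw [smul_mul_assoc, one_mul]
    rw [h2, h1, one_mul]
  -- the augmentation gives a proper ideal
  obtain ⟨ψ, hψ⟩ : ∃ ψ : C →ₙ+* ZMod 3, ∀ k : A, ψ (φ k) = augA k := by
    let E : A ≃+* C := RingEquiv.ofBijective φ ⟨hφ, hsurj⟩
    refine ⟨augA.comp (E.symm : C →ₙ+* A), fun k => ?_⟩
    change augA (E.symm (E k)) = augA k
    rw [RingEquiv.symm_apply_apply]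
  rcases hsimple (TwoSidedIdeal.ker ψ) with h | h
  · obtain ⟨g, hg⟩ : ∃ g : A, g = ((e 0 : L) : A) := ⟨_, rfl⟩
    have hm : φ g ∈ TwoSidedIdeal.ker ψ := by
      rw [TwoSidedIdeal.mem_ker, hψ, hg]
      exact aug_e 0
    rw [h, TwoSidedIdeal.mem_bot] at hm
    have h1 : g = 0 := hφ (by rw [hm, map_zero])
    rw [hg] at h1
    have h2 : e 0 = 0 := h1
    have := ee_ne (i := 0)
    rw [h2, zero_mul] at this
    exact this rfl
  · have hm : φ o ∈ TwoSidedIdeal.ker ψ := by rw [h]; trivial
    rw [TwoSidedIdeal.mem_ker, hψ, ho] at hm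
    have : aug 1 = 0 := hm
    rw [map_one] at this
    exact one_ne_zero this

end Pool.Agent.W415.Exc
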