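import Pool.Agent.W415.Exc.Contr

set_option autoImplicit false
set_option linter.unusedSimpArgs false

/-! The twisted product on the Grassmann algebra. -/

namespace Pool.Agent.W415.Exc

/-- the product `u v - D(u₁) v₁ + u₁ D(v₁)`, where `u₁, v₁` are the odd parts -/
noncomputable def mulA (u v : L) : L := u * v - D (od u) * od v + od u * D (od v)

theorem odd_D {u : L} (hu : inv u = -u) : inv (D u) = -(D u) := by rw [inv_D, hu, map_neg]
theorem even_D {u : L} (hu : inv u = u) : inv (D u) = D u := by rw [inv_D, hu]

theorem mulA_eq {a x b y : L} (ha : inv a = a) (hx : inv x = -x) (hb : inv b = b) (hy : inv y = -y) :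
    mulA (a + x) (b + y) = (a * b + x * y - D x * y + x * D y) + (a * y + b * x) := by
  rw [mulA, map_add od, map_add od, od_of_even ha, od_of_even hb, od_of_odd hx, od_of_odd hy, zero_add,
    zero_add, even_comm hb x]
  noncomm_ring

theorem ev1 {a x b y : L} (ha : inv a = a) (hx : inv x = -x) (hb : inv b = b) (hy : inv y = -y) :
    inv (a * b + x * y - D x * y + x * D y) = a * b + x * y - D x * y + x * D y := by
  simp only [map_add, map_sub, map_mul, ha, hb, hx, hy, odd_D hx, odd_D hy]
  noncomm_ring

theorem od1 {a x b y : L} (ha : inv a = a) (hx : inv x = -x) (hb : inv b = b) (hy : inv y = -y) :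
    inv (a * y + b * x) = - (a * y + b * x) := by
  simp only [map_add, map_mul, ha, hb, hx, hy]
  noncomm_ring

theorem assocL {u v w z : L} (h : u * v = w * z) (t : L) : u * (v * t) = w * (z * t) := by
  rw [← mul_assoc, h, mul_assoc]

theorem antiL {u v : L} (h : u * v = -(v * u)) (t : L) : u * (v * t) = -(v * (u * t)) := by
  rw [← mul_assoc, h, neg_mul, mul_assoc]

theorem sqL {u : L} (h : u * u = 0) (t : L) : u * (u * t) = 0 := by
  rw [← mul_assoc, h, zero_mul]

theorem left_alt_aux {a x b y : L} (ha : inv a = a) (hx : inv x = -x) (hb : inv b = b)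
    (hy : inv y = -y) : mulA (mulA (a + x) (a + x)) (b + y) = mulA (a + x) (mulA (a + x) (b + y)) := by
  rw [mulA_eq ha hx ha hx, mulA_eq ha hx hb hy, mulA_eq (ev1 ha hx ha hx) (od1 ha hx ha hx) hb hy,
    mulA_eq ha hx (ev1 ha hx hb hy) (od1 ha hx hb hy)]
  have hx' := odd_D hx
  have hy' := odd_D hy
  have ha' := even_D ha
  have hb' := even_D hb
  simp only [map_add D, D_mul]
  generalize D x = x' at *
  generalize D y = y' at *
  generalize D a = a' at *
  generalize D b = b' at *
  have r1 := fun u => even_comm ha u
  have r2 := fun u => even_comm hb u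
  have r3 := fun u => even_comm ha' u
  have r4 := fun u => even_comm hb' u
  -- order a < b < a' < b' < x < y < x' < y'
  have e1 := (r1 b).symm
  have e2 := (r1 x).symm
  have e3 := (r1 y).symm
  have e4 := (r1 x').symm
  have e5 := (r1 y').symm
  have e6 := (r2 x).symm
  have e7 := (r2 y).symm
  have e8 := (r2 x').symm
  have e9 := (r2 y').symm
  have e10 := (r3 x).symm
  have e11 := (r3 y).symm
  have e12 := (r4 x).symm
  have e13 := (r4 y).symm
  have o1 := odd_anti hy hx
  have o2 := odd_anti hx' hx
  have o3 := odd_anti hy' hx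
  have o4 := odd_anti hx' hy
  have o5 := odd_anti hy' hy
  have o6 := odd_anti hy' hx'
  have s1 := odd_sq hx
  have s2 := odd_sq hy
  have s3 := odd_sq hx'
  have s4 := odd_sq hy'
  simp only [mul_add, add_mul, sub_mul, mul_sub, mul_assoc]
  simp only [e1, e2, e3, e4, e5, e6, e7, e8, e9, e10, e11, e12, e13, assocL e1, assocL e2, assocL e3,
    assocL e4, assocL e5, assocL e6, assocL e7, assocL e8, assocL e9, assocL e10, assocL e11,
    assocL e12, assocL e13, o1, o2, o3, o4, o5, o6, antiL o1, antiL o2, antiL o3, antiL o4, antiL o5,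
    antiL o6, s1, s2, s3, s4, sqL s1, sqL s2, sqL s3, sqL s4, mul_neg, neg_mul, neg_neg, mul_zero, zero_mul]
  have t1 := three_eq (a' * (x * y))
  have t3 := three_eq (x * (y * x'))
  refine sub_eq_zero.1 (Eq.trans (b := -(a' * (x * y) + a' * (x * y) + a' * (x * y)) -
    (x * (y * x') + x * (y * x') + x * (y * x'))) (by abel) (by rw [t1, t3]; simp))

theorem right_alt_aux {a x b y : L} (ha : inv a = a) (hx : inv x = -x) (hb : inv b = b)
    (hy : inv y = -y) : mulA (mulA (b + y) (a + x)) (a + x) = mulA (b + y) (mulA (a + x) (a + x)) := by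
  rw [mulA_eq ha hx ha hx, mulA_eq hb hy ha hx, mulA_eq hb hy (ev1 ha hx ha hx) (od1 ha hx ha hx),
    mulA_eq (ev1 hb hy ha hx) (od1 hb hy ha hx) ha hx]
  have hx' := odd_D hx
  have hy' := odd_D hy
  have ha' := even_D ha
  have hb' := even_D hb
  simp only [map_add D, D_mul]
  generalize D x = x' at *
  generalize D y = y' at *
  generalize D a = a' at *
  generalize D b = b' at *
  have r1 := fun u => even_comm ha u
  have r2 := fun u => even_comm hb u
  have r3 := fun u => even_comm ha' u
  have r4 := fun u => even_comm hb' u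
  -- order a < b < a' < b' < x < y < x' < y'
  have e1 := (r1 b).symm
  have e2 := (r1 x).symm
  have e3 := (r1 y).symm
  have e4 := (r1 x').symm
  have e5 := (r1 y').symm
  have e6 := (r2 x).symm
  have e7 := (r2 y).symm
  have e8 := (r2 x').symm
  have e9 := (r2 y').symm
  have e10 := (r3 x).symm
  have e11 := (r3 y).symm
  have e12 := (r4 x).symm
  have e13 := (r4 y).symm
  have o1 := odd_anti hy hx
  have o2 := odd_anti hx' hx
  have o3 := odd_anti hy' hx
  have o4 := odd_anti hx' hy
  have o5 := odd_anti hy' hy
  have o6 := odd_anti hy' hx'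
  have s1 := odd_sq hx
  have s2 := odd_sq hy
  have s3 := odd_sq hx'
  have s4 := odd_sq hy'
  simp only [mul_add, add_mul, sub_mul, mul_sub, mul_assoc]
  simp only [e1, e2, e3, e4, e5, e6, e7, e8, e9, e10, e11, e12, e13, assocL e1, assocL e2, assocL e3,
    assocL e4, assocL e5, assocL e6, assocL e7, assocL e8, assocL e9, assocL e10, assocL e11,
    assocL e12, assocL e13, o1, o2, o3, o4, o5, o6, antiL o1, antiL o2, antiL o3, antiL o4, antiL o5,
    antiL o6, s1, s2, s3, s4, sqL s1, sqL s2, sqL s3, sqL s4, mul_neg, neg_mul, neg_neg, mul_zero, zero_mul]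
  have t1 := three_eq (a' * (x * y))
  have t3 := three_eq (x * (y * x'))
  refine sub_eq_zero.1 (Eq.trans (b := (a' * (x * y) + a' * (x * y) + a' * (x * y)) +
    (x * (y * x') + x * (y * x') + x * (y * x'))) (by abel) (by rw [t1, t3]; simp))

theorem left_alt (u v : L) : mulA (mulA u u) v = mulA u (mulA u v) := by
  have := left_alt_aux (ev_even u) (od_odd u) (ev_even v) (od_odd v)
  simpa only [sub_add_cancel] using this

theorem right_alt (u v : L) : mulA (mulA v u) u = mulA v (mulA u u) := by
  have := right_alt_aux (ev_even u) (od_odd u) (ev_even v) (od_odd v)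
  simpa only [sub_add_cancel] using this

theorem mulA_even_left {a : L} (ha : inv a = a) (u : L) : mulA a u = a * u := by
  rw [mulA, od_of_even ha]; simp

theorem mulA_even_right {a : L} (ha : inv a = a) (u : L) : mulA u a = u * a := by
  rw [mulA, od_of_even ha]; simp

theorem mulA_odd {x y : L} (hx : inv x = -x) (hy : inv y = -y) :
    mulA x y = x * y - D x * y + x * D y := by
  rw [mulA, od_of_odd hx, od_of_odd hy]

/-- the type synonym carrying the twisted product -/
def A : Type := L

noncomputable instance : AddCommGroup A := inferInstanceAs (AddCommGroup L)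
noncomputable instance : Module (ZMod 3) A := inferInstanceAs (Module (ZMod 3) L)
noncomputable instance : Mul A := ⟨fun u v => mulA u v⟩

theorem A_mul_def (u v : A) : u * v = mulA u v := rfl

theorem mulA_add (u v w : L) : mulA u (v + w) = mulA u v + mulA u w := by
  simp only [mulA, map_add, mul_add]; abel

theorem add_mulA (u v w : L) : mulA (u + v) w = mulA u w + mulA v w := by
  simp only [mulA, map_add, add_mul]; abel

theorem smul_mulA (r : ZMod 3) (u v : L) : mulA (r • u) v = r • mulA u v := by
  simp only [mulA, map_smul, smul_mul_assoc, smul_add, smul_sub]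

theorem mulA_smul (r : ZMod 3) (u v : L) : mulA u (r • v) = r • mulA u v := by
  simp only [mulA, map_smul, mul_smul_comm, smul_add, smul_sub]

theorem zero_mulA (u : L) : mulA 0 u = 0 := by simp [mulA]
theorem mulA_zero (u : L) : mulA u 0 = 0 := by simp [mulA]

noncomputable instance : NonUnitalNonAssocRing A :=
  { (inferInstance : AddCommGroup A), (inferInstance : Mul A) with
    left_distrib := fun u v w => mulA_add u v w
    right_distrib := fun u v w => add_mulA u v w
    zero_mul := fun u => zero_mulA u
    mul_zero := fun u => mulA_zero u }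

instance : IsScalarTower (ZMod 3) A A := ⟨fun r u v => smul_mulA r u v⟩
instance : SMulCommClass (ZMod 3) A A := ⟨fun r u v => (mulA_smul r u v).symm⟩

end Pool.Agent.W415.Exc
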