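import Pool.Agent.W415.Exc.Ext

set_option autoImplicit false

/-! Contractions and non-vanishing of `D ^ n a * b`. -/

namespace Pool.Agent.W415.Exc

open CliffordAlgebra

/-- contraction by a functional -/
noncomputable abbrev con (d : Module.Dual (ZMod 3) V) : L →ₗ[ZMod 3] L :=
  CliffordAlgebra.contractLeft (R := ZMod 3) (M := V) d

theorem con_io_mul (d : Module.Dual (ZMod 3) V) (v : V) (u : L) :
    con d (io v * u) = d v • u - io v * con d u :=
  CliffordAlgebra.contractLeft_ι_mul d v u

theorem con_algebraMap (d : Module.Dual (ZMod 3) V) (r : ZMod 3) :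
    con d (algebraMap (ZMod 3) L r) = 0 := CliffordAlgebra.contractLeft_algebraMap _ d r

theorem con_mul (d : Module.Dual (ZMod 3) V) (u w : L) :
    con d (u * w) = con d u * w + inv u * con d w := by
  induction u using CliffordAlgebra.left_induction with
  | algebraMap r => 
    rw [CliffordAlgebra.contractLeft_algebraMap_mul, AlgHom.commutes]
    rw [show con d (algebraMap (ZMod 3) L r) = 0 from con_algebraMap d r]
    simp
  | add x y hx hy => rw [add_mul, map_add, hx, hy, map_add, map_add]; noncomm_ring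
  | ι_mul x m hx =>
    change con d ((io m * x) * w) = con d (io m * x) * w + inv (io m * x) * con d w
    rw [mul_assoc, con_io_mul, hx, con_io_mul, map_mul, inv_io]
    simp only [mul_add, sub_mul, neg_mul, ← mul_assoc, smul_mul_assoc]
    abel

/-- commutation of contraction with the derivation -/
theorem con_D (d : Module.Dual (ZMod 3) V) (u : L) :
    con d (D u) = D (con d u) + con (d.comp T) u := by
  induction u using CliffordAlgebra.left_induction with
  | algebraMap r => 
    change con d (D (algebraMap (ZMod 3) L r)) = D (con d (algebraMap (ZMod 3) L r)) +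
      con (d.comp T) (algebraMap (ZMod 3) L r)
    rw [D_algebraMap, con_algebraMap, con_algebraMap]; simp
  | add x y hx hy => rw [map_add, map_add, hx, hy, map_add, map_add, map_add]; abel
  | ι_mul x m hx =>
    change con d (D (io m * x)) = D (con d (io m * x)) + con (d.comp T) (io m * x)
    rw [D_mul, D_io, map_add, con_io_mul, con_io_mul, con_io_mul, con_io_mul, hx, map_sub, map_smul,
      D_mul, D_io, mul_add, LinearMap.comp_apply]
    abel

/-- coordinate functional -/
noncomputable def co (k : ℕ) : Module.Dual (ZMod 3) V := Finsupp.lapply k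

theorem co_single (k i : ℕ) (c : ZMod 3) : co k (Finsupp.single i c) = if i = k then c else 0 := by
  simp [co, Finsupp.single_apply]

/-- `D ^ n` -/
noncomputable abbrev Dp (n : ℕ) : L →ₗ[ZMod 3] L := D ^ n

theorem Dp_zero (u : L) : Dp 0 u = u := rfl
theorem Dp_succ (n : ℕ) (u : L) : Dp (n + 1) u = D (Dp n u) := by
  rw [Dp, pow_succ']; rfl
theorem Dp_succ' (n : ℕ) (u : L) : Dp (n + 1) u = Dp n (D u) := by
  rw [Dp, pow_succ]; rfl
theorem Dp_add (n m : ℕ) (u : L) : Dp (n + m) u = Dp n (Dp m u) := by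
  rw [Dp, pow_add]; rfl

theorem co_comp_pow (k n : ℕ) (h : k < n) : (co k).comp (T ^ n) = 0 := by
  ext i
  have : ∀ (n i : ℕ), (T ^ n) (Finsupp.single i (1 : ZMod 3)) = Finsupp.single (i + n) 1 := by
    intro n
    induction n with
    | zero => intro i; rfl
    | succ n ih => 
      intro i
      rw [pow_succ, Module.End.mul_apply, T_single, ih]; congr 1; ring
  simp only [LinearMap.comp_apply, Finsupp.lsingle_apply, this, co_single]
  rw [if_neg (by omega)]; simp

theorem co_comp_pow_add (k n : ℕ) : (co (k + n)).comp (T ^ n) = co k := by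
  ext i
  have : ∀ (n i : ℕ), (T ^ n) (Finsupp.single i (1 : ZMod 3)) = Finsupp.single (i + n) 1 := by
    intro n
    induction n with
    | zero => intro i; rfl
    | succ n ih => 
      intro i
      rw [pow_succ, Module.End.mul_apply, T_single, ih]; congr 1; ring
  simp only [LinearMap.comp_apply, Finsupp.lsingle_apply, this, co_single]
  by_cases h : i = k
  · simp [h]
  · rw [if_neg (by omega), if_neg h]

theorem con_Dp (d : Module.Dual (ZMod 3) V) (n : ℕ) (u : L) :
    con d (Dp n u) = ∑ j ∈ Finset.range (n + 1), (n.choose j : ZMod 3) • Dp (n - j) (con (d.comp (T ^ j)) u) := by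
  induction n generalizing u d with
  | zero => simp [Dp_zero]; rfl
  | succ n ih =>
    rw [Dp_succ', ih]
    have hstep : ∀ j, con (d.comp (T ^ j)) (D u) = D (con (d.comp (T ^ j)) u) + con (d.comp (T ^ (j + 1))) u := by
      intro j
      rw [con_D, LinearMap.comp_assoc, pow_succ]; rfl
    simp only [hstep, map_add, smul_add]
    rw [Finset.sum_add_distrib]
    rw [Finset.sum_range_succ' (fun j => ((n + 1).choose j : ZMod 3) • Dp (n + 1 - j) (con (d.comp (T ^ j)) u))]
    have h1 : ∀ j ∈ Finset.range (n + 1), ((n + 1).choose (j + 1) : ZMod 3) • Dp (n + 1 - (j + 1)) (con (d.comp (T ^ (j + 1))) u)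
        = ((n.choose j : ZMod 3) • Dp (n - j) (con (d.comp (T ^ (j + 1))) u)) + 
          ((n.choose (j + 1) : ZMod 3) • Dp (n - j) (con (d.comp (T ^ (j + 1))) u)) := by
      intro j hj
      rw [Nat.choose_succ_succ, Nat.cast_add, add_smul, Nat.add_sub_add_right]
    rw [Finset.sum_congr rfl h1, Finset.sum_add_distrib]
    have h2 : ∑ j ∈ Finset.range (n + 1), (n.choose j : ZMod 3) • Dp (n - j) (D (con (d.comp (T ^ j)) u)) 
        = ∑ j ∈ Finset.range (n + 1), (n.choose (j + 1) : ZMod 3) • Dp (n - j) (con (d.comp (T ^ (j + 1))) u) 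
          + ((n + 1).choose 0 : ZMod 3) • Dp (n + 1 - 0) (con (d.comp (T ^ 0)) u) := by
      rw [Finset.sum_range_succ' (fun j => (n.choose j : ZMod 3) • Dp (n - j) (D (con (d.comp (T ^ j)) u))), 
        Finset.sum_range_succ (fun j => (n.choose (j + 1) : ZMod 3) • Dp (n - j) (con (d.comp (T ^ (j + 1))) u))]
      simp only [Nat.choose_succ_self, Nat.cast_zero, zero_smul, add_zero, Nat.choose_zero_right, Nat.sub_zero]
      congr 1
      · apply Finset.sum_congr rfl
        intro j hj
        rw [Finset.mem_range] at hj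
        rw [← Dp_succ', show n - (j + 1) + 1 = n - j by omega]
    rw [h2]; abel

theorem con_Dp_pow (d : Module.Dual (ZMod 3) V) (s : ℕ) (u : L) :
    con d (Dp (3 ^ s) u) = Dp (3 ^ s) (con d u) + con (d.comp (T ^ (3 ^ s))) u := by
  rw [con_Dp, Finset.sum_range_succ, Finset.sum_eq_single 0]
  · simp [Dp_zero]; rfl
  · intro j hj hj0
    rw [Finset.mem_range] at hj
    have : (3 : ℕ) ∣ (3 ^ s).choose j := Nat.prime_three.dvd_choose_pow hj0 (by omega)
    have h0 : (((3 ^ s).choose j : ℕ) : ZMod 3) = 0 := (ZMod.natCast_eq_zero_iff _ _).2 this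
    rw [h0, zero_smul]
  · intro h; exact absurd (Finset.mem_range.2 (by positivity)) h

/-- contraction by a small coordinate commutes with high powers -/
theorem con_Dp_mul (k t q : ℕ) (h : k < 3 ^ t) (u : L) :
    con (co k) (Dp (3 ^ t * q) u) = Dp (3 ^ t * q) (con (co k) u) := by
  induction q with
  | zero => rfl
  | succ q ih =>
    rw [Nat.mul_succ, Nat.add_comm, Dp_add, con_Dp_pow, co_comp_pow k _ h, ih, Dp_add]
    simp

/-- elements not involving `e i` for `i ≥ K` -/
noncomputable def LK (K : ℕ) : Subalgebra (ZMod 3) L := Algebra.adjoin (ZMod 3) {u | ∃ i < K, u = e i}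

theorem e_mem {i K : ℕ} (h : i < K) : e i ∈ LK K := Algebra.subset_adjoin ⟨i, h, rfl⟩

theorem LK_mono {K M : ℕ} (h : K ≤ M) : LK K ≤ LK M :=
  Algebra.adjoin_mono (fun _ ⟨i, hi, h'⟩ => ⟨i, by omega, h'⟩)

theorem exists_LK (u : L) : ∃ K, u ∈ LK K := by
  induction u using ExteriorAlgebra.induction with
  | algebraMap r => exact ⟨0, Subalgebra.algebraMap_mem _ _⟩
  | ι x => 
    change ∃ K, io x ∈ LK K
    induction x using Finsupp.induction_linear with
    | zero => exact ⟨0, by rw [map_zero]; exact Subalgebra.zero_mem _⟩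
    | add f g hf hg => 
      obtain ⟨K, hK⟩ := hf
      obtain ⟨M, hM⟩ := hg
      refine ⟨max K M, ?_⟩
      rw [map_add]
      exact Subalgebra.add_mem _ (LK_mono (le_max_left _ _) hK) (LK_mono (le_max_right _ _) hM)
    | single i c => 
      refine ⟨i + 1, ?_⟩
      have : Finsupp.single i c = c • Finsupp.single i (1 : ZMod 3) := by simp
      rw [this, map_smul]
      exact Subalgebra.smul_mem _ (e_mem (by omega)) _
  | mul a b ha hb => 
    obtain ⟨K, hK⟩ := ha
    obtain ⟨M, hM⟩ := hb
    exact ⟨max K M, Subalgebra.mul_mem _ (LK_mono (le_max_left _ _) hK) (LK_mono (le_max_right _ _) hM)⟩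
  | add a b ha hb => 
    obtain ⟨K, hK⟩ := ha
    obtain ⟨M, hM⟩ := hb
    exact ⟨max K M, Subalgebra.add_mem _ (LK_mono (le_max_left _ _) hK) (LK_mono (le_max_right _ _) hM)⟩

theorem con_e (k i : ℕ) : con (co k) (e i) = if i = k then 1 else 0 := by
  have := con_io_mul (co k) (Finsupp.single i 1) 1
  rw [mul_one] at this
  rw [e, this, co_single]
  have h1 : con (co k) 1 = 0 := by
    have := con_algebraMap (co k) 1
    rwa [map_one] at this
  rw [h1, mul_zero, sub_zero]
  split_ifs <;> simp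

theorem con_LK {k K : ℕ} (h : K ≤ k) {u : L} (hu : u ∈ LK K) : con (co k) u = 0 := by
  induction hu using Algebra.adjoin_induction with
  | mem x hx => 
    obtain ⟨i, hi, rfl⟩ := hx
    rw [con_e, if_neg (by omega)]
  | algebraMap r => exact con_algebraMap _ r
  | add x y _ _ hx hy => rw [map_add, hx, hy, add_zero]
  | mul x y _ _ hx hy => rw [con_mul, hx, hy]; simp

theorem inv_LK {K : ℕ} {u : L} (hu : u ∈ LK K) : inv u ∈ LK K := by
  induction hu using Algebra.adjoin_induction with
  | mem x hx => 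
    obtain ⟨i, hi, rfl⟩ := hx
    rw [inv_e]; exact Subalgebra.neg_mem _ (e_mem hi)
  | algebraMap r => rw [AlgHom.commutes]; exact Subalgebra.algebraMap_mem _ _
  | add x y _ _ hx hy => rw [map_add]; exact Subalgebra.add_mem _ hx hy
  | mul x y _ _ hx hy => rw [map_mul]; exact Subalgebra.mul_mem _ hx hy

theorem D_LK {K : ℕ} {u : L} (hu : u ∈ LK K) : D u ∈ LK (K + 1) := by
  induction hu using Algebra.adjoin_induction with
  | mem x hx => 
    obtain ⟨i, hi, rfl⟩ := hx
    rw [D_e]; exact e_mem (by omega)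
  | algebraMap r => rw [D_algebraMap]; exact Subalgebra.zero_mem _
  | add x y _ _ hx hy => rw [map_add]; exact Subalgebra.add_mem _ hx hy
  | mul x y hx' hy' hx hy => 
    rw [D_mul]
    have hK : LK K ≤ LK (K + 1) := LK_mono (by omega)
    exact Subalgebra.add_mem _ (Subalgebra.mul_mem _ hx (hK hy')) (Subalgebra.mul_mem _ (hK hx') hy)

theorem e_sq (i : ℕ) : e i * e i = 0 := odd_sq (inv_e i)

/-- decomposition -/
theorem decomp {K : ℕ} {u : L} (hu : u ∈ LK (K + 1)) :
    ∃ a ∈ LK K, ∃ b ∈ LK K, u = a + e K * b := by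
  induction hu using Algebra.adjoin_induction with
  | mem x hx => 
    obtain ⟨i, hi, rfl⟩ := hx
    by_cases h : i = K
    · exact ⟨0, Subalgebra.zero_mem _, 1, Subalgebra.one_mem _, by rw [h]; simp⟩
    · exact ⟨e i, e_mem (by omega), 0, Subalgebra.zero_mem _, by simp⟩
  | algebraMap r => exact ⟨_, Subalgebra.algebraMap_mem _ r, 0, Subalgebra.zero_mem _, by simp⟩
  | add x y _ _ hx hy => 
    obtain ⟨a, ha, b, hb, rfl⟩ := hx
    obtain ⟨c, hc, d, hd, rfl⟩ := hy
    exact ⟨a + c, Subalgebra.add_mem _ ha hc, b + d, Subalgebra.add_mem _ hb hd, by rw [mul_add]; abel⟩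
  | mul x y _ _ hx hy => 
    obtain ⟨a, ha, b, hb, rfl⟩ := hx
    obtain ⟨c, hc, d, hd, rfl⟩ := hy
    refine ⟨a * c, Subalgebra.mul_mem _ ha hc, b * c + inv a * d, 
      Subalgebra.add_mem _ (Subalgebra.mul_mem _ hb hc) (Subalgebra.mul_mem _ (inv_LK ha) hd), ?_⟩
    have h1 : a * e K = e K * inv a := mul_io _ _
    have h2 : b * e K = e K * inv b := mul_io _ _
    calc (a + e K * b) * (c + e K * d) 
        = a * c + e K * (b * c) + (a * e K) * d + e K * (b * e K) * d := by noncomm_ring
      _ = a * c + e K * (b * c + inv a * d) + (e K * e K) * inv b * d := by rw [h1, h2]; noncomm_ring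
      _ = _ := by rw [e_sq]; simp

theorem LK_zero {u : L} (hu : u ∈ LK 0) : ∃ r : ZMod 3, u = algebraMap (ZMod 3) L r := by
  induction hu using Algebra.adjoin_induction with
  | mem x hx => 
    obtain ⟨i, hi, rfl⟩ := hx
    omega
  | algebraMap r => exact ⟨r, rfl⟩
  | add x y _ _ hx hy => 
    obtain ⟨a, rfl⟩ := hx
    obtain ⟨b, rfl⟩ := hy
    exact ⟨a + b, by rw [map_add]⟩
  | mul x y _ _ hx hy => 
    obtain ⟨a, rfl⟩ := hx
    obtain ⟨b, rfl⟩ := hy
    exact ⟨a * b, by rw [map_mul]⟩

/-- The key non-vanishing statement. -/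
theorem nonvan (K : ℕ) : ∀ a ∈ LK K, a ≠ 0 → ∀ b : L, b ≠ 0 → ∀ t : ℕ, ∃ q : ℕ,
    Dp (3 ^ t * q) a * b ≠ 0 := by
  induction K with
  | zero => 
    intro a ha ha0 b hb t
    obtain ⟨r, rfl⟩ := LK_zero ha
    refine ⟨0, ?_⟩
    rw [Nat.mul_zero, Dp_zero, ← Algebra.smul_def]
    have hr : r ≠ 0 := by rintro rfl; exact ha0 (map_zero _)
    exact smul_ne_zero hr hb
  | succ K ih =>
    intro a ha ha0 b hb t
    obtain ⟨c, hc, d, hd, rfl⟩ := decomp ha
    by_cases hd0 : d = 0
    · subst hd0
      rw [mul_zero, add_zero] at ha0 ⊢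
      exact ih c hc ha0 b hb t
    · obtain ⟨M, hM⟩ := exists_LK b
      obtain ⟨s, hs⟩ : ∃ s, s = K + M + 1 + t := ⟨_, rfl⟩
      have hs3 : s < 3 ^ s := Nat.lt_pow_self (by norm_num)
      obtain ⟨N, hN⟩ : ∃ N, N = 3 ^ s := ⟨_, rfl⟩
      obtain ⟨w, hw⟩ : ∃ w, w = K + N + 1 + t := ⟨_, rfl⟩
      have hw3 : w < 3 ^ w := Nat.lt_pow_self (by norm_num)
      obtain ⟨q, hq⟩ := ih d hd hd0 b hb w
      have h1 : 3 ^ w = 3 ^ t * 3 ^ (w - t) := by rw [← pow_add]; congr 1; omega
      have h2 : N = 3 ^ t * 3 ^ (s - t) := by rw [hN, ← pow_add]; congr 1; omega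
      refine ⟨3 ^ (w - t) * q + 3 ^ (s - t), fun hcon => hq ?_⟩
      rw [mul_add, ← mul_assoc, ← h1, ← h2, Dp_add] at hcon
      have h3 := congrArg (con (co (K + N))) hcon
      rw [con_mul, con_LK (show M ≤ K + N by omega) hM, map_zero, mul_zero, add_zero,
        con_Dp_mul _ _ _ (by omega)] at h3
      rw [hN, con_Dp_pow, co_comp_pow_add, con_LK (show K + 1 ≤ K + 3 ^ s by omega) ha, map_zero, zero_add,
        map_add, con_LK le_rfl hc, zero_add, con_mul, con_e, if_pos rfl, one_mul, con_LK le_rfl hd, 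
        mul_zero, add_zero] at h3
      exact h3

/-- multiplication by a new generator -/
theorem mul_e_ne {K : ℕ} {u : L} (hu : u ∈ LK K) (h0 : u ≠ 0) : u * e K ≠ 0 := by
  intro h
  have h1 : e K * inv u = 0 := by rw [← h]; exact (mul_io _ _).symm
  have h2 := congrArg (con (co K)) h1
  rw [con_mul, con_e, if_pos rfl, one_mul, con_LK le_rfl (inv_LK hu), mul_zero, add_zero, map_zero] at h2
  apply h0
  rw [← inv_inv' u, h2, map_zero]

end Pool.Agent.W415.Exc
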