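import Mathlib

set_option autoImplicit false

/-!
The Grassmann algebra over `ZMod 3` on `e 0, e 1, ...` with the shift derivation `D (e i) = e (i+1)`.
-/

namespace Pool.Agent.W415.Exc

open CliffordAlgebra

abbrev V := ℕ →₀ ZMod 3
abbrev L := ExteriorAlgebra (ZMod 3) V

/-- generator attached to a vector -/
noncomputable abbrev io : V →ₗ[ZMod 3] L := ExteriorAlgebra.ι (ZMod 3)

noncomputable def e (i : ℕ) : L := io (Finsupp.single i 1)

/-- The shift. -/
noncomputable def T : V →ₗ[ZMod 3] V := Finsupp.lmapDomain (ZMod 3) (ZMod 3) Nat.succ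

theorem T_single (i : ℕ) (c : ZMod 3) : T (Finsupp.single i c) = Finsupp.single (i + 1) c := by
  simp [T, Finsupp.lmapDomain_apply, Finsupp.mapDomain_single]

noncomputable def dlin : V →ₗ[ZMod 3] DualNumber L :=
  (TrivSqZeroExt.inlAlgHom (ZMod 3) L L).toLinearMap.comp io +
    ((TrivSqZeroExt.inrHom L L).restrictScalars (ZMod 3)).comp (io.comp T)

theorem dlin_apply (v : V) : dlin v = TrivSqZeroExt.inl (io v) + TrivSqZeroExt.inr (io (T v)) := by
  simp [dlin]

theorem dlin_sq (v : V) : dlin v * dlin v = 0 := by
  rw [dlin_apply]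
  ext
  · simp [TrivSqZeroExt.fst_mul]
  · have := ExteriorAlgebra.ι_add_mul_swap (R := ZMod 3) v (T v)
    simpa [TrivSqZeroExt.snd_mul, MulOpposite.smul_eq_mul_unop, e] using this

noncomputable def Dhom : L →ₐ[ZMod 3] DualNumber L := ExteriorAlgebra.lift (ZMod 3) ⟨dlin, dlin_sq⟩

theorem Dhom_fst (u : L) : (Dhom u).fst = u := by
  induction u using ExteriorAlgebra.induction with
  | algebraMap r => simp [Dhom, TrivSqZeroExt.algebraMap_eq_inl']
  | ι x => rw [Dhom, ExteriorAlgebra.lift_ι_apply, dlin_apply]; simp
  | mul a b ha hb => rw [map_mul, TrivSqZeroExt.fst_mul, ha, hb]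
  | add a b ha hb => rw [map_add, TrivSqZeroExt.fst_add, ha, hb]

noncomputable def D : L →ₗ[ZMod 3] L where
  toFun u := (Dhom u).snd
  map_add' a b := by simp
  map_smul' c a := by simp

theorem D_mul (a b : L) : D (a * b) = D a * b + a * D b := by
  change (Dhom (a * b)).snd = (Dhom a).snd * b + a * (Dhom b).snd
  rw [map_mul, TrivSqZeroExt.snd_mul, Dhom_fst, Dhom_fst]
  simp [MulOpposite.smul_eq_mul_unop, add_comm]

theorem D_algebraMap (r : ZMod 3) : D (algebraMap (ZMod 3) L r) = 0 := by
  change (Dhom _).snd = 0
  simp [TrivSqZeroExt.algebraMap_eq_inl']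

theorem D_one : D (1 : L) = 0 := by
  simpa using D_algebraMap 1

theorem D_io (v : V) : D (io v) = io (T v) := by
  change (Dhom _).snd = _
  rw [Dhom, ExteriorAlgebra.lift_ι_apply, dlin_apply]; simp

theorem D_e (i : ℕ) : D (e i) = e (i + 1) := by
  rw [e, D_io, T_single, e]

/-- grade involution -/
noncomputable abbrev inv : L →ₐ[ZMod 3] L := CliffordAlgebra.involute

theorem inv_io (v : V) : inv (io v) = - io v := CliffordAlgebra.involute_ι v

theorem inv_inv' (u : L) : inv (inv u) = u := CliffordAlgebra.involute_involute u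

theorem inv_e (i : ℕ) : inv (e i) = - e i := inv_io _

theorem inv_D (u : L) : inv (D u) = D (inv u) := by
  induction u using ExteriorAlgebra.induction with
  | algebraMap r => simp [D_algebraMap]
  | ι x => 
    change inv (D (io x)) = D (inv (io x))
    rw [D_io, inv_io, inv_io, map_neg, D_io]
  | mul a b ha hb => rw [D_mul, map_add, map_mul, map_mul, map_mul, D_mul, ha, hb]
  | add a b ha hb => rw [map_add, map_add, ha, hb, map_add, map_add]

/-- generators supercommute -/
theorem io_mul (v : V) (u : L) : io v * u = inv u * io v := by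
  induction u using ExteriorAlgebra.induction with
  | algebraMap r => 
    rw [AlgHom.commutes, Algebra.commutes]
  | ι x => 
    change io v * io x = inv (io x) * io v
    rw [inv_io, neg_mul]
    exact eq_neg_of_add_eq_zero_left (ExteriorAlgebra.ι_add_mul_swap (R := ZMod 3) v x)
  | mul a b ha hb => rw [← mul_assoc, ha, mul_assoc, hb, map_mul, mul_assoc]
  | add a b ha hb => rw [mul_add, ha, hb, map_add, add_mul]

theorem mul_io (v : V) (u : L) : u * io v = io v * inv u := by
  rw [io_mul, inv_inv']

theorem even_comm {u : L} (hu : inv u = u) (v : L) : u * v = v * u := by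
  induction v using ExteriorAlgebra.induction with
  | algebraMap r => rw [Algebra.commutes]
  | ι x => 
    change u * io x = io x * u
    rw [mul_io, hu]
  | mul a b ha hb => rw [← mul_assoc, ha, mul_assoc, hb, mul_assoc]
  | add a b ha hb => rw [mul_add, ha, hb, add_mul]

theorem odd_comm {u : L} (hu : inv u = -u) (v : L) : u * v = inv v * u := by
  induction v using ExteriorAlgebra.induction with
  | algebraMap r => rw [AlgHom.commutes, Algebra.commutes]
  | ι x => 
    change u * io x = inv (io x) * u
    rw [mul_io, hu, inv_io, neg_mul, mul_neg]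
  | mul a b ha hb => rw [← mul_assoc, ha, mul_assoc, hb, map_mul, mul_assoc]
  | add a b ha hb => rw [mul_add, ha, hb, map_add, add_mul]

theorem odd_anti {u v : L} (hu : inv u = -u) (hv : inv v = -v) : u * v = -(v * u) := by
  rw [odd_comm hu, hv, neg_mul]

theorem three_eq (u : L) : u + u + u = 0 := by
  have h : (3 : ZMod 3) • u = 0 := by
    have : (3 : ZMod 3) = 0 := by decide
    rw [this, zero_smul]
  have h2 : (3 : ZMod 3) • u = u + u + u := by
    have : (3 : ZMod 3) = 1 + 1 + 1 := by norm_num
    rw [this, add_smul, add_smul, one_smul]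
  rw [← h2, h]

theorem odd_sq {u : L} (hu : inv u = -u) : u * u = 0 := by
  have h := odd_anti hu hu
  have h3 := three_eq (u * u)
  have : u * u + u * u = 0 := by
    nth_rewrite 1 [h]; simp
  rw [this, zero_add] at h3
  exact h3

/-- odd part -/
noncomputable def od : L →ₗ[ZMod 3] L := inv.toLinearMap - LinearMap.id

theorem od_apply (u : L) : od u = inv u - u := rfl

theorem od_odd (u : L) : inv (od u) = - od u := by
  rw [od_apply, map_sub, inv_inv', neg_sub]

theorem ev_even (u : L) : inv (u - od u) = u - od u := by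
  rw [map_sub, od_odd, od_apply]
  have := three_eq (inv u)
  have h2 := three_eq u
  have : inv u - -(inv u - u) - (u - (inv u - u)) = (inv u + inv u + inv u) - (u + u + u) := by abel
  rw [← sub_eq_zero, this]
  simp [*]

theorem od_of_even {u : L} (hu : inv u = u) : od u = 0 := by rw [od_apply, hu, sub_self]

theorem od_of_odd {u : L} (hu : inv u = -u) : od u = u := by
  rw [od_apply, hu, ← sub_eq_zero]
  have := three_eq u
  have h : -u - u - u = -(u + u + u) := by abel
  rw [h, this, neg_zero]

end Pool.Agent.W415.Exc
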